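import Pool.Agent.H72.PER.Targets

/-!
Row GB of the board per_modules: intervals all of whose subs have small slope.
-/

set_option autoImplicit false

open Module

namespace Pool.Agent.H19.PER

open Pool.Agent.H72.HR Pool.Agent.H72.PER
open Pool.Agent.H72.SBP (MvK)

private theorem arith1 {p q v u r u' : ℕ} (hv : 0 < v) (h1 : v * u + (v + u) * u' ≤ (v + u) * r)
    (h2 : p * v ≤ q * u) : p * v + (p + q) * u' ≤ (p + q) * r := by
  have h3 : (v + u) * (p * v + (p + q) * u') ≤ (v + u) * ((p + q) * r) := by
    have h4 : (p + q) * (v * u + (v + u) * u') ≤ (p + q) * ((v + u) * r) :=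
      Nat.mul_le_mul_left _ h1
    have h5 : v * (p * v) ≤ v * (q * u) := Nat.mul_le_mul_left _ h2
    nlinarith
  exact Nat.le_of_mul_le_mul_left h3 (by omega)

theorem pf_GB (hEXA : T_EXA) (h : T_ADD) : T_GB := by
  intro K F _ _ _ n x s p q hp hq hH l c A
  obtain ⟨g1, _, _⟩ := hEXA K F n c c
  obtain ⟨hadd, _⟩ := h K F n l c x A
  have key : ∀ (N : ℕ) (V' V : Submodule K (Fin l → K))
      (U' U : Submodule K (Fin c → K)) (a b : ℕ), a + b ≤ N → V' ≤ V → U' ≤ U →
      Into Set.univ A V' U' → Into Set.univ A V U →
      finrank K V = finrank K V' + a → finrank K U = finrank K U' + b → a + b ≤ s →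
      (∀ (V2 : Submodule K (Fin l → K)) (U2 : Submodule K (Fin c → K)), V' ≤ V2 → V2 ≤ V →
        U' ≤ U2 → U2 ≤ U → Into Set.univ A V2 U2 →
        p * (finrank K V2 - finrank K V') ≤ q * (finrank K U2 - finrank K U')) →
      p * a + (p + q) * finrank K U' ≤ (p + q) * RR F x A V U' := by
    intro N
    induction N with
    | zero =>
      intro V' V U' U a b hN hV hU hI' hI ha hb hs hss
      have ha0 : a = 0 := by omega
      subst ha0
      rw [mul_zero, zero_add]
      refine Nat.mul_le_mul_left _ ?_
      rw [← g1 U']
      exact Submodule.finrank_mono le_sup_right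
    | succ N ih =>
      intro V' V U' U a b hN hV hU hI' hI ha hb hs hss
      rcases Nat.eq_zero_or_pos a with rfl | ha0
      · rw [mul_zero, zero_add]
        refine Nat.mul_le_mul_left _ ?_
        rw [← g1 U']
        exact Submodule.finrank_mono le_sup_right
      · set T : Set (ℕ × ℕ) := {ij | 0 < ij.1 ∧ ∃ (V2 : Submodule K (Fin l → K))
          (U2 : Submodule K (Fin c → K)), V' ≤ V2 ∧ V2 ≤ V ∧ U' ≤ U2 ∧ U2 ≤ U ∧
          Into Set.univ A V2 U2 ∧ finrank K V2 = finrank K V' + ij.1 ∧
          finrank K U2 = finrank K U' + ij.2} with hT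
        have hmemT : ∀ (V2 : Submodule K (Fin l → K)) (U2 : Submodule K (Fin c → K)), V' ≤ V2 →
            V2 ≤ V → U' ≤ U2 → U2 ≤ U → Into Set.univ A V2 U2 →
            0 < finrank K V2 - finrank K V' →
            (finrank K V2 - finrank K V', finrank K U2 - finrank K U') ∈ T := by
          intro V2 U2 k1 k2 k3 k4 k5 k6
          have k7 := Submodule.finrank_mono k1
          have k8 := Submodule.finrank_mono k3
          exact ⟨k6, V2, U2, k1, k2, k3, k4, k5, by simp only; omega, by simp only; omega⟩
        have hfin : T.Finite := by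
          refine Set.Finite.subset ((Finset.range (a + 1) ×ˢ Finset.range (b + 1)).finite_toSet) ?_
          rintro ⟨i, j⟩ ⟨_, V2, U2, _, k2, _, k4, _, k6, k7⟩
          have k8 := Submodule.finrank_mono k2
          have k9 := Submodule.finrank_mono k4
          simp only [Finset.coe_product, Finset.coe_range, Set.mem_prod, Set.mem_Iio]
          simp only at k6 k7
          omega
        have hne : T.Nonempty := ⟨(a, b), ha0, V, U, hV, le_rfl, hU, le_rfl, hI, ha, hb⟩
        obtain ⟨⟨v, u⟩, ⟨hv0, V2, U2, k1, k2, k3, k4, k5, k6, k7⟩, hmin⟩ :=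
          Set.exists_min_image T (fun ij : ℕ × ℕ => ((ij.2 : ℚ) / (ij.1 : ℚ))) hfin hne
        simp only at hv0 k6 k7
        have hmin' : ∀ i j : ℕ, (i, j) ∈ T → u * i ≤ j * v := by
          intro i j hij
          have h1 := hmin (i, j) hij
          simp only at h1
          have hi : 0 < i := hij.1
          rw [div_le_div_iff₀ (by exact_mod_cast hv0) (by exact_mod_cast hi)] at h1
          exact_mod_cast h1
        have f2 := Submodule.finrank_mono k2
        have f4 := Submodule.finrank_mono k4
        have hva : v ≤ a := by omega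
        have hub : u ≤ b := by omega
        have hpv : p * v ≤ q * u := by
          have := hss V2 U2 k1 k2 k3 k4 k5
          rw [k6, k7, Nat.add_sub_cancel_left, Nat.add_sub_cancel_left] at this
          exact this
        have step1 : p * v + (p + q) * finrank K U' ≤ (p + q) * RR F x A V2 U' := by
          refine arith1 hv0 (hH l c A V' V2 U' U2 v u k1 k3 hI' k5 k6 k7 (by omega) ?_) hpv
          intro V3 U3 m1 m2 m3 m4 m5
          rcases Nat.eq_zero_or_pos (finrank K V3 - finrank K V') with h0 | h0
          · rw [h0, mul_zero]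
            exact Nat.zero_le _
          · have := hmin' _ _ (hmemT V3 U3 m1 (m2.trans k2) m3 (m4.trans k4) m5 h0)
            linarith
        have step2 : p * (a - v) + (p + q) * finrank K U2 ≤ (p + q) * RR F x A V U2 := by
          refine ih V2 V U2 U (a - v) (b - u) (by omega) k2 k4 k5 hI (by omega) (by omega)
            (by omega) ?_
          intro V4 U4 m1 m2 m3 m4 m5
          have n1 := Submodule.finrank_mono m1
          have n3 := Submodule.finrank_mono m3
          obtain ⟨i, hi⟩ : ∃ i, finrank K V4 = finrank K V2 + i := ⟨_, (Nat.add_sub_of_le n1).symm⟩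
          obtain ⟨j, hj⟩ : ∃ j, finrank K U4 = finrank K U2 + j := ⟨_, (Nat.add_sub_of_le n3).symm⟩
          have h1 := hmin' _ _ (hmemT V4 U4 (k1.trans m1) m2 (k3.trans m3) m4 m5 (by omega))
          have e1 : finrank K V4 - finrank K V' = v + i := by omega
          have e2 : finrank K U4 - finrank K U' = u + j := by omega
          have e3 : finrank K V4 - finrank K V2 = i := by omega
          have e4 : finrank K U4 - finrank K U2 = j := by omega
          rw [e1, e2] at h1
          rw [e3, e4]
          have h2 : u * i ≤ j * v := by nlinarith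
          have h3 : v * (p * i) ≤ v * (q * j) := by
            calc v * (p * i) = (p * v) * i := by ring
              _ ≤ (q * u) * i := Nat.mul_le_mul_right _ hpv
              _ = q * (u * i) := by ring
              _ ≤ q * (j * v) := Nat.mul_le_mul_left _ h2
              _ = v * (q * j) := by ring
          exact Nat.le_of_mul_le_mul_left h3 hv0
        have step3 := hadd V2 V U' U2 k2 k3 k5
        have step4 : (p + q) * (RR F x A V U2 + RR F x A V2 U') ≤
            (p + q) * (RR F x A V U' + finrank K U2) := Nat.mul_le_mul_left _ step3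
        have step5 : p * a = p * (a - v) + p * v := by
          rw [← Nat.mul_add]
          congr 1
          omega
        nlinarith
  intro V' V U' U a b hV hU hI' hI ha hb hs hss
  exact key (a + b) V' V U' U a b le_rfl hV hU hI' hI ha hb hs hss

end Pool.Agent.H19.PER
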