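import Pool.Agent.H72.PER.Targets

/-!
Row MID of the board per_modules: the middle block.
-/

set_option autoImplicit false

open Module

namespace Pool.Agent.H19.PER

open Pool.Agent.H72.HR Pool.Agent.H72.PER
open Pool.Agent.H72.SBP (MvK)

section
variable {K F : Type} [Field K] [Field F] [Algebra K F]

/-- the value of the pencil on an extended vector -/
theorem vecMul_im {n l c : ℕ} (x : Fin n → F) (A : Fin (n + 1) → Matrix (Fin l) (Fin c) K)
    (v : Fin l → K) :
    Matrix.vecMul (fun i => algebraMap K F (v i)) (MvK x A) =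
      ∑ k, (Fin.cons 1 x : Fin (n + 1) → F) k •
        (fun j => algebraMap K F (Matrix.vecMul v (A k) j) : Fin c → F) := by
  have e1 : ∀ p j, MvK x A p j =
      ∑ k, (Fin.cons 1 x : Fin (n + 1) → F) k * algebraMap K F (A k p j) := by
    intro p j
    rw [Fin.sum_univ_succ]
    simp only [Fin.cons_zero, Fin.cons_succ, one_mul, MvK]
  funext j
  rw [Finset.sum_apply]
  simp only [Matrix.vecMul, dotProduct, Pi.smul_apply, smul_eq_mul, e1, map_sum, map_mul,
    Finset.mul_sum]
  rw [Finset.sum_comm]
  refine Finset.sum_congr rfl fun k _ => Finset.sum_congr rfl fun i _ => ?_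
  ring

theorem im_mem_ext {l : ℕ} {V : Submodule K (Fin l → K)} {v : Fin l → K} (h : v ∈ V) :
    (fun i => algebraMap K F (v i) : Fin l → F) ∈ ext F V :=
  Submodule.subset_span ⟨v, h, rfl⟩

end

theorem pf_MID (h : T_EXA) : T_MID := by
  intro K F _ _ _ m l c x hx A V U hI
  obtain ⟨h1, h2, h3, _⟩ := h K F (m + 1) l c
  obtain ⟨g1, g2, g3, _⟩ := h K F (m + 1) c c
  rw [← g1]
  set L := Matrix.vecMulLinear (A (Fin.last (m + 1))) with hL
  set M := Matrix.vecMulLinear (MvK x A) with hM
  set w : (Fin l → K) → Fin c → F := fun v => ∑ k : Fin (m + 1),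
    (Fin.cons 1 x : Fin (m + 1 + 1) → F) k.castSucc •
      (fun j => algebraMap K F (Matrix.vecMul v (A k.castSucc) j) : Fin c → F) with hw
  have e1 : ∀ v : Fin l → K, M (fun i => algebraMap K F (v i)) =
      w v + x (Fin.last m) • (fun j => algebraMap K F (L v j) : Fin c → F) := by
    intro v
    change Matrix.vecMul (fun i => algebraMap K F (v i)) (MvK x A) = _
    rw [vecMul_im, Fin.sum_univ_castSucc]
    rfl
  have e2 : ∀ v ∈ V, w v ∈ ext F U := by
    intro v hv
    refine Submodule.sum_mem _ fun k _ => Submodule.smul_mem _ _ (im_mem_ext ?_)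
    exact hI k.castSucc (Fin.castSucc_lt_last k).ne v hv
  have e3 : (ext F V).map M ⊔ ext F U = ext F (U ⊔ V.map L) := by
    rw [g3]
    refine le_antisymm (sup_le ?_ le_sup_left) (sup_le le_sup_right ?_)
    · rw [Submodule.map_le_iff_le_comap]
      refine Submodule.span_le.2 ?_
      rintro _ ⟨v, hv, rfl⟩
      change M (fun i => algebraMap K F (v i)) ∈
        (ext F U ⊔ ext F (V.map L) : Submodule F (Fin c → F))
      rw [e1]
      refine Submodule.add_mem _ (Submodule.mem_sup_left (e2 v hv)) ?_
      exact Submodule.smul_mem _ _ (Submodule.mem_sup_right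
        (im_mem_ext (Submodule.mem_map_of_mem hv)))
    · refine Submodule.span_le.2 ?_
      rintro _ ⟨_, ⟨v, hv, rfl⟩, rfl⟩
      have e4 : (fun j => algebraMap K F (L v j) : Fin c → F) =
          (x (Fin.last m))⁻¹ • (M (fun i => algebraMap K F (v i)) - w v) := by
        rw [e1, add_sub_cancel_left, smul_smul, inv_mul_cancel₀ hx, one_smul]
      change (fun j => algebraMap K F (L v j) : Fin c → F) ∈
        ((ext F V).map M ⊔ ext F U : Submodule F (Fin c → F))
      rw [e4]
      refine Submodule.smul_mem _ _ (Submodule.sub_mem _ ?_ (Submodule.mem_sup_right (e2 v hv)))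
      exact Submodule.mem_sup_left (Submodule.mem_map_of_mem (im_mem_ext hv))
  unfold RR
  rw [← hM, e3]

end Pool.Agent.H19.PER
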