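import Pool.Agent.H72.PER.Targets
import Pool.Agent.H19.PER.MID

/-!
Row INT of the board per_modules: the half rank property for matrices gives it for intervals.
-/

set_option autoImplicit false

open Module

namespace Pool.Agent.H19.PER

open Pool.Agent.H72.HR Pool.Agent.H72.PER
open Pool.Agent.H72.SBP (MvK)

section
variable {K : Type} [Field K]

/-- a relative complement with coordinates -/
theorem exists_coord {l : ℕ} (V' V : Submodule K (Fin l → K)) (hV : V' ≤ V) (a : ℕ)
    (ha : finrank K V = finrank K V' + a) :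
    ∃ E : (Fin a → K) →ₗ[K] (Fin l → K), Function.Injective E ∧ V' ⊔ LinearMap.range E = V ∧
      V' ⊓ LinearMap.range E = ⊥ := by
  obtain ⟨W0, hW0⟩ := exists_isCompl V'
  set W := W0 ⊓ V with hW
  have h1 : V' ⊔ W = V := by
    rw [hW, ← sup_inf_assoc_of_le W0 hV, hW0.sup_eq_top, top_inf_eq]
  have h2 : V' ⊓ W = ⊥ := by
    rw [hW, ← inf_assoc, hW0.inf_eq_bot, bot_inf_eq]
  have h3 : finrank K W = a := by
    have := Submodule.finrank_sup_add_finrank_inf_eq V' W
    rw [h1, h2, finrank_bot] at this
    omega
  set b := finBasisOfFinrankEq K W h3 with hb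
  refine ⟨W.subtype ∘ₗ (b.equivFun.symm : (Fin a → K) →ₗ[K] W), ?_, ?_, ?_⟩
  · exact (Subtype.val_injective).comp b.equivFun.symm.injective
  · rw [LinearMap.range_comp, LinearEquiv.range, Submodule.map_top, Submodule.range_subtype, h1]
  · rw [LinearMap.range_comp, LinearEquiv.range, Submodule.map_top, Submodule.range_subtype, h2]

theorem map_eq_sum {l a : ℕ} (E : (Fin a → K) →ₗ[K] (Fin l → K)) (v : Fin a → K) :
    E v = ∑ i, v i • E (Pi.single i 1) := by
  conv_lhs => rw [← Finset.univ_sum_single v]
  rw [map_sum]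
  refine Finset.sum_congr rfl fun i _ => ?_
  rw [← map_smul]
  congr 1
  funext j
  by_cases hj : j = i
  · subst hj; simp
  · simp [hj]

theorem finrank_sup_map {l a : ℕ} (V' : Submodule K (Fin l → K))
    (E : (Fin a → K) →ₗ[K] (Fin l → K)) (hE : Function.Injective E)
    (hd : V' ⊓ LinearMap.range E = ⊥) (V1 : Submodule K (Fin a → K)) :
    finrank K (V' ⊔ V1.map E : Submodule K (Fin l → K)) = finrank K V' + finrank K V1 := by
  have h1 : V' ⊓ V1.map E = ⊥ := by
    refine le_bot_iff.1 ?_
    rw [← hd]
    exact inf_le_inf_left _ LinearMap.map_le_range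
  have h2 : finrank K (V1.map E) = finrank K V1 :=
    (LinearEquiv.finrank_eq (Submodule.equivMapOfInjective E hE V1)).symm
  have := Submodule.finrank_sup_add_finrank_inf_eq V' (V1.map E)
  rw [h1, finrank_bot, h2] at this
  omega

end

theorem pf_INT (h : T_EXA) : T_INT := by
  intro K F _ _ _ n S x hHRS s l c A V' V U' U a b hV hU hI' hI ha hb _ hss
  obtain ⟨_, _, _, _⟩ := h K F n l c
  obtain ⟨g1, g2, g3, _⟩ := h K F n c c
  obtain ⟨E, hE, hE1, hE2⟩ := exists_coord V' V hV a ha
  obtain ⟨T, hT, hT1, hT2⟩ := exists_coord U' U hU b hb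
  -- the matrices in coordinates
  have hex : ∀ (k : Fin (n + 1)) (i : Fin a), ∃ w : Fin b → K,
      Matrix.vecMul (E (Pi.single i 1)) (A k) - T w ∈ U' := by
    intro k i
    have h1 : E (Pi.single i 1) ∈ V := by
      rw [← hE1]
      exact Submodule.mem_sup_right ⟨_, rfl⟩
    have h2 := hI k (Set.mem_univ k) _ h1
    rw [← hT1, Submodule.mem_sup] at h2
    obtain ⟨u', hu', _, ⟨w, rfl⟩, hw⟩ := h2
    refine ⟨w, ?_⟩
    rw [← hw, add_sub_cancel_right]
    exact hu'
  choose B0 hB0 using hex
  set B : Fin (n + 1) → Matrix (Fin a) (Fin b) K := fun k => Matrix.of (B0 k) with hB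
  have hlin : ∀ (k : Fin (n + 1)) (v : Fin a → K),
      Matrix.vecMul (E v) (A k) - T (Matrix.vecMul v (B k)) ∈ U' := by
    intro k v
    have e1 : E v = ∑ i, v i • E (Pi.single i 1) := map_eq_sum E v
    have e2 : Matrix.vecMul v (B k) = ∑ i, v i • B0 k i := by
      funext j
      simp [Matrix.vecMul, dotProduct, hB]
    rw [e1, e2, map_sum, ← Matrix.vecMulLinear_apply, map_sum, ← Finset.sum_sub_distrib]
    refine Submodule.sum_mem _ fun i _ => ?_
    rw [map_smul, map_smul, ← smul_sub]
    exact Submodule.smul_mem _ _ (hB0 k i)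
  -- the half rank property of `B`
  have hrk : a * b ≤ (MvK x B).rank * (a + b) := by
    refine hHRS a b B fun V1 U1 hI1 => ?_
    have k1 : V' ≤ V' ⊔ V1.map E := le_sup_left
    have k2 : V' ⊔ V1.map E ≤ V := by
      rw [← hE1]
      exact sup_le_sup_left LinearMap.map_le_range _
    have k3 : U' ≤ U' ⊔ U1.map T := le_sup_left
    have k4 : U' ⊔ U1.map T ≤ U := by
      rw [← hT1]
      exact sup_le_sup_left LinearMap.map_le_range _
    have k5 : Into S A (V' ⊔ V1.map E) (U' ⊔ U1.map T) := by
      intro k hk y hy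
      rw [Submodule.mem_sup] at hy
      obtain ⟨y', hy', _, ⟨v, hv, rfl⟩, rfl⟩ := hy
      rw [Matrix.add_vecMul]
      refine Submodule.add_mem _ (Submodule.mem_sup_left (hI' k (Set.mem_univ k) y' hy')) ?_
      have e1 : Matrix.vecMul (E v) (A k) =
          (Matrix.vecMul (E v) (A k) - T (Matrix.vecMul v (B k))) +
            T (Matrix.vecMul v (B k)) := by rw [sub_add_cancel]
      rw [e1]
      exact Submodule.add_mem _ (Submodule.mem_sup_left (hlin k v))
        (Submodule.mem_sup_right (Submodule.mem_map_of_mem (hI1 k hk v hv)))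
    have k6 := hss _ _ k1 k2 k3 k4 k5
    rw [finrank_sup_map V' E hE hE2, finrank_sup_map U' T hT hT2, Nat.add_sub_cancel_left,
      Nat.add_sub_cancel_left] at k6
    exact k6
  -- extension of the coordinates
  set f : Fin b → Fin c → F := fun j i => algebraMap K F (T (Pi.single j 1) i) with hf
  set TF : (Fin b → F) →ₗ[F] (Fin c → F) := Fintype.linearCombination F f with hTF
  have hTFa : ∀ w, TF w = ∑ j, w j • f j := fun w => Fintype.linearCombination_apply F f w
  have hTim : ∀ w : Fin b → K, (fun i => algebraMap K F (T w i) : Fin c → F) =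
      TF fun j => algebraMap K F (w j) := by
    intro w
    rw [hTFa]
    funext i
    rw [map_eq_sum T w]
    simp [hf, Finset.sum_apply, map_sum, Algebra.smul_def]
  have hUle : ext F U ≤ ext F U' ⊔ LinearMap.range TF := by
    rw [← hT1, g3]
    refine sup_le_sup_left (Submodule.span_le.2 ?_) _
    rintro _ ⟨_, ⟨w, rfl⟩, rfl⟩
    exact ⟨_, (hTim w).symm⟩
  have hsum := Submodule.finrank_sup_add_finrank_inf_eq (ext F U') (LinearMap.range TF)
  have hker := LinearMap.finrank_range_add_finrank_ker TF
  rw [finrank_fin_fun] at hker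
  have hU1 : finrank F (ext F U) = finrank K U := g1 U
  have hU2 : finrank F (ext F U') = finrank K U' := g1 U'
  have hge := Submodule.finrank_mono hUle
  have hinf0 : ext F U' ⊓ LinearMap.range TF = ⊥ := by
    have : finrank F (ext F U' ⊓ LinearMap.range TF : Submodule F (Fin c → F)) = 0 := by omega
    exact Submodule.finrank_eq_zero.1 this
  have hinj : Function.Injective TF := by
    rw [← LinearMap.ker_eq_bot]
    have : finrank F (LinearMap.ker TF) = 0 := by omega
    exact Submodule.finrank_eq_zero.1 this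
  -- the rows of the value of `B`
  set R : Submodule F (Fin b → F) := LinearMap.range (Matrix.vecMulLinear (MvK x B)) with hR
  have hRrk : finrank F R = (MvK x B).rank := by
    rw [hR, ← Matrix.rank_transpose (MvK x B), Matrix.rank, Matrix.mulVecLin_transpose]
  have hle : ext F U' ⊔ R.map TF ≤
      (ext F V).map (Matrix.vecMulLinear (MvK x A)) ⊔ ext F U' := by
    refine sup_le le_sup_right ?_
    rw [Submodule.map_le_iff_le_comap, hR]
    rintro _ ⟨v, rfl⟩
    have e0 : Matrix.vecMulLinear (MvK x B) v = ∑ i, v i • (MvK x B) i := by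
      rw [Matrix.vecMulLinear_apply]
      funext j
      simp [Matrix.vecMul, dotProduct]
    rw [Submodule.mem_comap, e0, map_sum]
    refine Submodule.sum_mem _ fun i _ => ?_
    rw [map_smul]
    refine Submodule.smul_mem _ _ ?_
    -- one row
    have e1 := vecMul_im x A (E (Pi.single i 1))
    have e2 : ∀ k : Fin (n + 1),
        (fun j => algebraMap K F (Matrix.vecMul (E (Pi.single i 1)) (A k) j) : Fin c → F) =
          (fun j => algebraMap K F ((Matrix.vecMul (E (Pi.single i 1)) (A k) - T (B0 k i)) j)) +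
            TF fun j => algebraMap K F (B0 k i j) := by
      intro k
      rw [← hTim]
      funext j
      simp
    have e3 : TF ((MvK x B) i) = ∑ k, (Fin.cons 1 x : Fin (n + 1) → F) k •
        TF fun j => algebraMap K F (B0 k i j) := by
      simp only [← map_smul]
      rw [← map_sum]
      congr 1
      funext j
      rw [Finset.sum_apply, Fin.sum_univ_succ]
      simp [MvK, hB]
    have e4 : TF ((MvK x B) i) =
        Matrix.vecMulLinear (MvK x A) (fun j => algebraMap K F (E (Pi.single i 1) j)) -
          ∑ k, (Fin.cons 1 x : Fin (n + 1) → F) k •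
            (fun j => algebraMap K F
              ((Matrix.vecMul (E (Pi.single i 1)) (A k) - T (B0 k i)) j) : Fin c → F) := by
      rw [Matrix.vecMulLinear_apply, e1, e3, ← Finset.sum_sub_distrib]
      refine Finset.sum_congr rfl fun k _ => ?_
      rw [e2 k, smul_add, add_sub_cancel_left]
    rw [e4]
    refine Submodule.sub_mem _ (Submodule.mem_sup_left (Submodule.mem_map_of_mem (im_mem_ext ?_)))
      (Submodule.mem_sup_right (Submodule.sum_mem _ fun k _ => Submodule.smul_mem _ _
        (im_mem_ext (hB0 k i))))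
    rw [← hE1]
    exact Submodule.mem_sup_right ⟨_, rfl⟩
  have hfin : finrank K U' + (MvK x B).rank ≤ RR F x A V U' := by
    have h1 := Submodule.finrank_mono hle
    rw [finrank_sup_map (ext F U') TF hinj hinf0 R, hU2, hRrk] at h1
    exact h1
  calc a * b + (a + b) * finrank K U' ≤ (MvK x B).rank * (a + b) + (a + b) * finrank K U' :=
        Nat.add_le_add_right hrk _
    _ = (a + b) * (finrank K U' + (MvK x B).rank) := by ring
    _ ≤ (a + b) * RR F x A V U' := Nat.mul_le_mul_left _ hfin

end Pool.Agent.H19.PER
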